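import Pool.Agent.H545R2.KS.Main
import Pool.Agent.H545R2.KS.Sat
import Pool.Agent.H545R2.KS.Uni

/-!
Joseph's question is equivalent to `P ≠ NP`: the sets `K[log n, n ^ log n] ∩ SAT` and the complement
of `SAT` are polynomially inseparable if and only if `P ≠ NP`.

Proof idea. Let `S ⊆ SAT` be in `P` with infinitely many satisfiable formulas outside `S`. That
some satisfiable formula of length between `N` and `N²` is not in `S` is an `NP` statement about
`N`, so it reduces to a formula. Search for a witness bit by bit, using `S` in place of `SAT`: either a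
witness is found, that is, an element of `SAT \ S`, or the search gets stuck, and then one of two
formulas at hand belongs to `SAT \ S`. The result is computed from `N` and one bit in time
polynomial in `N`; this is less than `n ^ log n`, and for `N = 2 ^ 2 ^ j` the description has
length about `log log N`.
-/

namespace Pool.Agent.Results.MP_359409_lc.IffPneNP

open Pool.Agent.NPC
open Pool.Agent.H545R2.KS

theorem pow_lt_two_pow (k : ℕ) : ∃ N, ∀ n, N ≤ n → n ^ k < 2 ^ n := by
  have h := tendsto_pow_const_div_const_pow_of_one_lt (r := (2 : ℝ)) k (by norm_num)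
  have h2 := h.eventually (gt_mem_nhds (show (0 : ℝ) < 1 by norm_num))
  obtain ⟨N, hN⟩ := Filter.eventually_atTop.1 h2
  refine ⟨N, fun n hn => ?_⟩
  have h3 := hN n hn
  rw [div_lt_one (by positivity)] at h3
  exact_mod_cast h3

theorem hg_log (c : ℕ) : ∃ n₀, ∀ n ≥ n₀, (Nat.log 2 (Nat.log 2 n)) ^ c ≤ Nat.clog 2 n := by
  obtain ⟨N, hN⟩ := pow_lt_two_pow c
  refine ⟨2 ^ (2 ^ N), fun n hn => ?_⟩
  have h1 := loglog_ge hn
  have h2 := hN _ h1
  have h3 : Nat.log 2 n ≠ 0 := by
    intro h
    have h4 : 1 ≤ Nat.log 2 n := by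
      rw [Nat.le_log_iff_pow_le (by norm_num) (by
        have : 0 < 2 ^ (2 ^ N) := by positivity
        omega)]
      refine le_trans ?_ hn
      exact Nat.pow_le_pow_right (by norm_num) Nat.one_le_two_pow
    omega
  have h4 := Nat.pow_log_le_self 2 h3
  have h5 := Nat.log_le_clog 2 n
  omega

theorem hG_log (c : ℕ) : ∃ n₀, ∀ n ≥ n₀, n ^ c ≤ n ^ Nat.clog 2 n := by
  refine ⟨2 ^ c, fun n hn => ?_⟩
  have h0 : 0 < 2 ^ c := by positivity
  refine Nat.pow_le_pow_right (by omega) ?_
  have h1 : c ≤ Nat.log 2 n := by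
    rw [Nat.le_log_iff_pow_le (by norm_num) (by omega)]
    exact hn
  exact h1.trans (Nat.log_le_clog 2 n)

/-- A Turing machine that simulates every machine after a fixed prefix is universal. -/
theorem universal_of_prefix {U : Machine} (h : ∀ M : Machine, ∃ (p : List Bool) (c : ℕ),
    ∀ (y x : List Bool) (t : ℕ), Outputs M y x t →
      Outputs U (p ++ y) x ((t + y.length + 2) ^ c)) : Universal U := by
  intro M
  obtain ⟨p, c, hc⟩ := h M
  refine ⟨c + p.length + 1, fun y x t hout => ⟨p ++ y, ?_, ?_⟩⟩
  · rw [List.length_append]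
    have h1 : p.length < 2 ^ p.length := Nat.lt_two_pow_self
    have h2 : (y.length + 2) ^ (p.length + 1) ≤ (y.length + 2) ^ (c + p.length + 1) :=
      Nat.pow_le_pow_right (by omega) (by omega)
    have h3 : 2 ^ p.length ≤ (y.length + 2) ^ p.length := Nat.pow_le_pow_left (by omega) _
    have h4 : (y.length + 2) ^ (p.length + 1) = (y.length + 2) ^ p.length * (y.length + 2) :=
      pow_succ _ _
    nlinarith
  · obtain ⟨h5⟩ := hc y x t hout
    refine ⟨⟨h5.toEvalsTo, h5.steps_le_m.trans ?_⟩⟩
    exact Nat.pow_le_pow_right (by omega) (by omega)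

/-- (1) For every universal machine, `K[log n, n ^ log n] ∩ SAT` and the complement of `SAT` are
polynomially inseparable if and only if `P ≠ NP`.

(2) The same holds for every `NP`-complete paddable set `A` in place of `SAT` (such as `SAT` with
any of the usual encodings) and for every class `K[g(n), G(n)]` such that `G` is superpolynomial
and `g(n) ≥ (log log n) ^ c` for every `c` and all large `n`.

(3) Quantitatively: if `P ≠ NP`, then for every subset `S` of `A` in `P` there is `c` such that
infinitely many `x ∈ A \ S` belong to `K[(log log n) ^ c, n ^ c]`.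

(4) `SAT` is `NP`-complete and paddable.

(5) There is a universal machine, even one with inputs of the form `p y` with `p` depending only
on the simulated machine. -/
theorem result :
    (∀ U : Machine, Universal U →
      (¬ Separable (K U (fun n => Nat.clog 2 n) (fun n => n ^ Nat.clog 2 n) ∩ SAT) SATᶜ ↔
        ¬ PeqNP)) ∧
    (∀ U : Machine, Universal U → ∀ A : Set (List Bool), NPComplete A → Paddable A →
      ∀ g G : ℕ → ℕ, (∀ c, ∃ n₀, ∀ n ≥ n₀, (Nat.log 2 (Nat.log 2 n)) ^ c ≤ g n) →
        (∀ c, ∃ n₀, ∀ n ≥ n₀, n ^ c ≤ G n) →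
        (¬ Separable (K U g G ∩ A) Aᶜ ↔ ¬ PeqNP)) ∧
    (∀ U : Machine, Universal U → ∀ A : Set (List Bool), NPComplete A → Paddable A → ¬ PeqNP →
      ∀ S : Set (List Bool), InP S → S ⊆ A → ∃ c : ℕ,
        {x | x ∈ K U (fun n => (Nat.log 2 (Nat.log 2 n)) ^ c) (fun n => n ^ c) ∧
          x ∈ A ∧ x ∉ S}.Infinite) ∧
    (NPComplete SAT ∧ Paddable SAT) ∧
    (∃ U : Machine, Universal U ∧ ∀ M : Machine, ∃ (p : List Bool) (c : ℕ),
      ∀ (y x : List Bool) (t : ℕ), Outputs M y x t →
        Outputs U (p ++ y) x ((t + y.length + 2) ^ c)) := by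
  have hsat := Pool.Agent.NPC.H545KS.sat_complete
  have hpad := Pool.Agent.NPC.H545KS.sat_paddable
  refine ⟨fun U hU => not_congr (sep_iff hU hsat hpad hg_log hG_log),
    fun U hU A hA hAp g G hg hG => not_congr (sep_iff hU hA hAp hg hG),
    fun U hU A hA hAp hP S hS hSA => refuter hU hA hAp hP hS hSA, ⟨hsat, hpad⟩, ?_⟩
  obtain ⟨U, hU⟩ := exists_universal
  exact ⟨U, universal_of_prefix hU, hU⟩

end Pool.Agent.Results.MP_359409_lc.IffPneNP
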